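import Mathlib

set_option autoImplicit false

/-! # Interval exchanges with flips: definitions and group facts -/

namespace Pool.Agent.R567.IETF

open Filter Topology MeasureTheory Set

/-- The circle `R/Z`. -/
abbrev S : Type := UnitAddCircle

/-- Near `x`, the map `f` has the form `y ↦ y + c` or `y ↦ c - y`. -/
def IsoAt (f : S → S) (x : S) : Prop :=
  ∃ c : S, (∀ᶠ y in 𝓝 x, f y = y + c) ∨ (∀ᶠ y in 𝓝 x, f y = c - y)

theorem IsoAt.exists_homeo {f : S → S} {x : S} (h : IsoAt f x) :
    ∃ e : S ≃ₜ S, MeasurePreserving e volume volume ∧ (∀ᶠ y in 𝓝 x, f y = e y) ∧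
      ((∃ c, ∀ y, e y = y + c) ∨ (∃ c, ∀ y, e y = c - y)) := by
  obtain ⟨c, hc | hc⟩ := h
  · refine ⟨Homeomorph.addRight c, ?_, hc, Or.inl ⟨c, fun y => rfl⟩⟩
    exact measurePreserving_add_right volume c
  · refine ⟨Homeomorph.subLeft c, ?_, hc, Or.inr ⟨c, fun y => rfl⟩⟩
    exact Measure.measurePreserving_sub_left volume c

theorem IsoAt.continuousAt {f : S → S} {x : S} (h : IsoAt f x) : ContinuousAt f x := by
  obtain ⟨e, _, he, _⟩ := h.exists_homeo
  exact (e.continuous.continuousAt).congr (he.mono fun y hy => hy.symm)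

theorem isoAt_of_form {f : S → S} {x : S} {e : S ≃ₜ S} (hf : ∀ᶠ y in 𝓝 x, f y = e y)
    (he : (∃ c, ∀ y, e y = y + c) ∨ (∃ c, ∀ y, e y = c - y)) : IsoAt f x := by
  rcases he with ⟨c, hc⟩ | ⟨c, hc⟩
  · exact ⟨c, Or.inl (hf.mono fun y hy => by rw [hy, hc])⟩
  · exact ⟨c, Or.inr (hf.mono fun y hy => by rw [hy, hc])⟩

theorem IsoAt.comp {f g : S → S} {x : S} (hf : IsoAt f (g x)) (hg : IsoAt g x) :
    IsoAt (f ∘ g) x := by
  obtain ⟨c, hc⟩ := hf
  obtain ⟨d, hd⟩ := hg
  have hcont : Tendsto g (𝓝 x) (𝓝 (g x)) := (IsoAt.continuousAt ⟨d, hd⟩)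
  rcases hc with hc | hc <;> rcases hd with hd | hd
  · refine ⟨d + c, Or.inl ?_⟩
    filter_upwards [hd, hcont.eventually hc] with y h1 h2
    rw [Function.comp_apply, h2, h1, add_assoc]
  · refine ⟨d + c, Or.inr ?_⟩
    filter_upwards [hd, hcont.eventually hc] with y h1 h2
    rw [Function.comp_apply, h2, h1]
    abel
  · refine ⟨c - d, Or.inr ?_⟩
    filter_upwards [hd, hcont.eventually hc] with y h1 h2
    rw [Function.comp_apply, h2, h1]
    abel
  · refine ⟨c - d, Or.inl ?_⟩
    filter_upwards [hd, hcont.eventually hc] with y h1 h2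
    rw [Function.comp_apply, h2, h1]
    abel

theorem IsoAt.symm {f : Equiv.Perm S} {x : S} (hf : IsoAt f x) : IsoAt f.symm (f x) := by
  obtain ⟨c, hc⟩ := hf
  rcases hc with hc | hc
  · refine ⟨-c, Or.inl ?_⟩
    have h1 : Tendsto (fun z : S => z - c) (𝓝 (f x)) (𝓝 x) := by
      have h2 : f x - c = x := by rw [hc.self_of_nhds]; abel
      have h3 : Tendsto (fun z : S => z - c) (𝓝 (f x)) (𝓝 (f x - c)) :=
        (continuous_sub_right c).continuousAt
      rwa [h2] at h3
    filter_upwards [h1.eventually hc] with z hz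
    rw [Equiv.symm_apply_eq]
    rw [← sub_eq_add_neg, hz]
    abel
  · refine ⟨c, Or.inr ?_⟩
    have h1 : Tendsto (fun z : S => c - z) (𝓝 (f x)) (𝓝 x) := by
      have h2 : c - f x = x := by rw [hc.self_of_nhds]; abel
      have h3 : Tendsto (fun z : S => c - z) (𝓝 (f x)) (𝓝 (c - f x)) :=
        (continuous_sub_left c).continuousAt
      rwa [h2] at h3
    filter_upwards [h1.eventually hc] with z hz
    rw [Equiv.symm_apply_eq, hz]
    abel

/-- The group of permutations of the circle that are piecewise isometric: outside a finite set,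
the permutation is locally of the form `y ↦ y + c` or `y ↦ c - y`. -/
def PIso : Subgroup (Equiv.Perm S) where
  carrier := {f | {x | ¬ IsoAt f x}.Finite}
  one_mem' := by
    refine Set.finite_empty.subset fun x hx => hx ?_
    exact ⟨0, Or.inl (Eventually.of_forall fun y => by simp)⟩
  mul_mem' := by
    intro f g hf hg
    refine (hg.union (hf.preimage g.injective.injOn)).subset ?_
    intro x hx
    by_contra hn
    simp only [mem_union, mem_ofPred_eq, mem_preimage, not_or, not_not] at hn
    exact hx (show IsoAt (f ∘ g) x from IsoAt.comp hn.2 hn.1)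
  inv_mem' := by
    intro f hf
    refine (hf.image f).subset ?_
    intro y hy
    refine ⟨f.symm y, fun h => hy ?_, f.apply_symm_apply y⟩
    have h2 : IsoAt f.symm (f (f.symm y)) := h.symm
    rw [f.apply_symm_apply] at h2
    exact h2

/-- The group of finitely supported permutations. -/
def Sfin : Subgroup (Equiv.Perm S) where
  carrier := {f | {x | f x ≠ x}.Finite}
  one_mem' := by simp
  mul_mem' := by
    intro f g hf hg
    refine (hf.union hg).subset ?_
    intro x hx
    by_contra hn
    simp only [mem_union, mem_ofPred_eq, not_or, not_not] at hn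
    apply hx
    rw [Equiv.Perm.mul_apply, hn.2, hn.1]
  inv_mem' := by
    intro f hf
    refine hf.subset ?_
    intro x hx h
    apply hx
    rw [Equiv.Perm.inv_eq_iff_eq]
    exact h.symm

instance : Sfin.Normal where
  conj_mem := by
    intro f hf g
    refine (hf.image g).subset ?_
    intro x hx
    refine ⟨g⁻¹ x, fun h => hx ?_, by simp⟩
    rw [Equiv.Perm.mul_apply, Equiv.Perm.mul_apply, h]
    simp

/-- Lebesgue measurable maps of the circle. -/
def LebMeas (f : S → S) : Prop :=
  ∀ s : Set S, NullMeasurableSet s volume → NullMeasurableSet (f ⁻¹' s) volume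

/-- `f` and its inverse are Lebesgue measurable and `f` preserves the Lebesgue measure. -/
structure IsAut (f : Equiv.Perm S) : Prop where
  meas : LebMeas f
  meas_symm : LebMeas f.symm
  pres : ∀ s : Set S, NullMeasurableSet s volume → volume (f ⁻¹' s) = volume s

theorem isAut_one : IsAut 1 where
  meas := fun s hs => by simpa using hs
  meas_symm := fun s hs => hs
  pres := fun s _ => by simp

theorem IsAut.mul {f g : Equiv.Perm S} (hf : IsAut f) (hg : IsAut g) : IsAut (f * g) where
  meas := fun s hs => by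
    rw [Equiv.Perm.coe_mul, preimage_comp]
    exact hg.meas _ (hf.meas _ hs)
  meas_symm := fun s hs => by
    have h1 : (⇑(f * g).symm) ⁻¹' s = f.symm ⁻¹' (g.symm ⁻¹' s) := rfl
    rw [h1]
    exact hf.meas_symm _ (hg.meas_symm _ hs)
  pres := fun s hs => by
    rw [Equiv.Perm.coe_mul, preimage_comp, hg.pres _ (hf.meas _ hs), hf.pres _ hs]

theorem IsAut.inv {f : Equiv.Perm S} (hf : IsAut f) : IsAut f⁻¹ where
  meas := fun s hs => hf.meas_symm s hs
  meas_symm := fun s hs => hf.meas s hs
  pres := fun s hs => by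
    have h1 := hf.pres _ (hf.meas_symm s hs)
    have h2 : f ⁻¹' (f.symm ⁻¹' s) = s := by
      ext x; simp
    rw [h2] at h1
    exact h1.symm

/-- The group of the permutations `f` of the circle such that `f` and its inverse are Lebesgue
measurable and `f` preserves the Lebesgue measure. -/
def Ghat : Subgroup (Equiv.Perm S) where
  carrier := {f | IsAut f}
  one_mem' := isAut_one
  mul_mem' := fun hf hg => IsAut.mul hf hg
  inv_mem' := fun hf => IsAut.inv hf

theorem Ghat.null {f : Equiv.Perm S} (hf : f ∈ Ghat) {s : Set S} (hs : volume s = 0) :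
    volume (f ⁻¹' s) = 0 := by
  rw [IsAut.pres hf s (NullMeasurableSet.of_null hs), hs]

theorem Ghat.null' {f : Equiv.Perm S} (hf : f ∈ Ghat) {s : Set S} (hs : volume s = 0) :
    volume (f '' s) = 0 := by
  have h1 : f '' s = (f⁻¹ : Equiv.Perm S) ⁻¹' s := by
    ext x
    simp only [mem_image, mem_preimage]
    constructor
    · rintro ⟨y, hy, rfl⟩
      simpa using hy
    · intro h
      exact ⟨f⁻¹ x, h, by simp⟩
  rw [h1]
  exact Ghat.null (Ghat.inv_mem hf) hs

/-- The normal subgroup of the elements that are almost everywhere the identity. -/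
def N : Subgroup Ghat where
  carrier := {f | ∀ᵐ x, (f : Equiv.Perm S) x = x}
  one_mem' := by
    change ∀ᵐ x, ((1 : Ghat) : Equiv.Perm S) x = x
    exact Eventually.of_forall fun x => rfl
  mul_mem' := by
    intro f g hf hg
    change ∀ᵐ x, ((f * g : Ghat) : Equiv.Perm S) x = x
    have hf' : ∀ᵐ x, (f : Equiv.Perm S) x = x := hf
    have hg' : ∀ᵐ x, (g : Equiv.Perm S) x = x := hg
    filter_upwards [hf', hg'] with x h1 h2
    simp only [Subgroup.coe_mul, Equiv.Perm.mul_apply]
    rw [h2, h1]
  inv_mem' := by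
    intro f hf
    change ∀ᵐ x, ((f⁻¹ : Ghat) : Equiv.Perm S) x = x
    have hf' : ∀ᵐ x, (f : Equiv.Perm S) x = x := hf
    filter_upwards [hf'] with x hx
    simp only [InvMemClass.coe_inv]
    rw [Equiv.Perm.inv_eq_iff_eq]
    exact hx.symm

instance : N.Normal where
  conj_mem := by
    intro f hf g
    have h1 : volume {x | ¬ (f : Equiv.Perm S) x = x} = 0 := hf
    have h2 := Ghat.null' g.2 h1
    change volume {x | ¬ ((g * f * g⁻¹ : Ghat) : Equiv.Perm S) x = x} = 0
    refine measure_mono_null ?_ h2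
    intro x hx
    refine ⟨(g : Equiv.Perm S)⁻¹ x, fun h => hx ?_, by simp⟩
    simp only [Subgroup.coe_mul, InvMemClass.coe_inv, Equiv.Perm.mul_apply]
    rw [h]
    simp

/-- A permutation that agrees almost everywhere with an element of `Ghat` is in `Ghat`. -/
theorem mem_Ghat_of_ae {f f' : Equiv.Perm S} (hf : f ∈ Ghat) (h : ∀ᵐ x, f' x = f x) :
    f' ∈ Ghat := by
  have h0 : volume {x | ¬ f' x = f x} = 0 := h
  have hinv : ∀ᵐ y, f'.symm y = f.symm y := by
    have h1 : volume (f '' {x | ¬ f' x = f x}) = 0 := Ghat.null' hf h0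
    refine measure_mono_null ?_ h1
    intro y hy
    by_contra hn
    apply hy
    have h2 : f' (f.symm y) = y := by
      by_contra h3
      apply hn
      refine ⟨f.symm y, ?_, by simp⟩
      intro h4
      exact h3 (by rw [h4]; simp)
    change f'.symm y = f.symm y
    rw [Equiv.symm_apply_eq]
    exact h2.symm
  have hpre : ∀ s : Set S, (f' ⁻¹' s : Set S) =ᵐ[volume] (f ⁻¹' s : Set S) := by
    intro s
    filter_upwards [h] with x hx
    apply propext
    change f' x ∈ s ↔ f x ∈ s
    rw [hx]
  have hpre' : ∀ s : Set S, (f'.symm ⁻¹' s : Set S) =ᵐ[volume] (f.symm ⁻¹' s : Set S) := by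
    intro s
    filter_upwards [hinv] with x hx
    apply propext
    change f'.symm x ∈ s ↔ f.symm x ∈ s
    rw [hx]
  have hf' : IsAut f := hf
  exact ⟨fun s hs => (hf'.meas s hs).congr (hpre s).symm,
    fun s hs => (hf'.meas_symm s hs).congr (hpre' s).symm,
    fun s hs => by rw [measure_congr (hpre s), hf'.pres s hs]⟩

end Pool.Agent.R567.IETF
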