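import Mathlib
import Pool.Agent.R567.IETF.Defs

set_option autoImplicit false

/-! # Piecewise isometric permutations preserve the Lebesgue measure -/

namespace Pool.Agent.R567.IETF

open Filter Topology MeasureTheory Set

instance instNoAtomsS : NullSingletonClass (volume : Measure S) where
  measure_singleton x := by
    rw [← Metric.closedBall_zero, AddCircle.volume_closedBall]
    simp

instance instProbS : IsProbabilityMeasure (volume : Measure S) where
  measure_univ := UnitAddCircle.measure_univ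

theorem finite_measure_zero {s : Set S} (hs : s.Finite) : volume s = 0 := by
  exact hs.measure_zero volume

/-- A countable family of measure-preserving homeomorphisms that agree with `f` on open sets
covering the good points of `f`. -/
theorem exists_cover {f : Equiv.Perm S} (_hf : f ∈ PIso) :
    ∃ (V : ℕ → Set S) (e : ℕ → S ≃ₜ S), (∀ n, IsOpen (V n)) ∧
      (∀ n, MeasurePreserving (e n) volume volume) ∧ (∀ n, ∀ y ∈ V n, f y = e n y) ∧
      (∀ x, IsoAt f x → ∃ n, x ∈ V n) := by
  classical
  have h1 : ∀ x : S, ∃ e : S ≃ₜ S, MeasurePreserving e volume volume ∧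
      ∃ U : Set S, IsOpen U ∧ (∀ y ∈ U, f y = e y) ∧ (IsoAt f x → x ∈ U) := by
    intro x
    by_cases hx : IsoAt f x
    · obtain ⟨e, he1, he2, _⟩ := hx.exists_homeo
      obtain ⟨U, hU1, hU2, hU3⟩ := eventually_nhds_iff.1 he2
      exact ⟨e, he1, U, hU2, hU1, fun _ => hU3⟩
    · refine ⟨Homeomorph.refl S, MeasurePreserving.id volume, ∅, isOpen_empty, ?_, ?_⟩
      · intro y hy
        exact absurd hy (Set.notMem_empty y)
      · intro h
        exact absurd h hx
  choose e he U hUo hUf hUx using h1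
  have h2 : ∀ x ∈ {x | IsoAt f x}, U x ∈ 𝓝[{x | IsoAt f x}] x := by
    intro x hx
    exact mem_nhdsWithin_of_mem_nhds ((hUo x).mem_nhds (hUx x hx))
  obtain ⟨t, ht1, ht2, ht3⟩ := TopologicalSpace.countable_cover_nhdsWithin h2
  rcases t.eq_empty_or_nonempty with h0 | hne
  · refine ⟨fun _ => ∅, fun _ => Homeomorph.refl S, fun _ => isOpen_empty,
      fun _ => MeasurePreserving.id volume, fun n y hy => absurd hy (Set.notMem_empty y), ?_⟩
    intro x hx
    have h3 := ht3 hx
    rw [h0] at h3
    simp at h3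
  · obtain ⟨g, hg⟩ := ht2.exists_eq_range hne
    refine ⟨fun n => U (g n), fun n => e (g n), fun n => hUo _, fun n => he _,
      fun n y hy => hUf _ y hy, ?_⟩
    intro x hx
    have h3 := ht3 hx
    simp only [mem_iUnion, exists_prop] at h3
    obtain ⟨z, hz1, hz2⟩ := h3
    rw [hg] at hz1
    obtain ⟨n, rfl⟩ := hz1
    exact ⟨n, hz2⟩

theorem measurable_and_le {f : Equiv.Perm S} (hf : f ∈ PIso) :
    ∀ s : Set S, MeasurableSet s → MeasurableSet (f ⁻¹' s) ∧ volume (f ⁻¹' s) ≤ volume s := by
  obtain ⟨V, e, hV, he, hfe, hcov⟩ := exists_cover hf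
  have hfin : {x | ¬ IsoAt f x}.Finite := hf
  intro s hs
  set A : ℕ → Set S := disjointed V with hA
  have hAm : ∀ n, MeasurableSet (A n) := fun n =>
    MeasurableSet.disjointed (fun i => (hV i).measurableSet) n
  have hAV : ∀ n, A n ⊆ V n := fun n => disjointed_subset V n
  have hAU : (⋃ n, A n) = ⋃ n, V n := iUnion_disjointed
  have hAd : Pairwise (Function.onFun Disjoint A) := disjoint_disjointed V
  set R : Set S := f ⁻¹' s ∩ (⋃ n, A n)ᶜ with hR
  have hRfin : R.Finite := by
    refine hfin.subset ?_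
    intro x hx h
    apply hx.2
    rw [hAU]
    obtain ⟨n, hn⟩ := hcov x h
    exact mem_iUnion.2 ⟨n, hn⟩
  have hpiece : ∀ n, f ⁻¹' s ∩ A n = e n ⁻¹' s ∩ A n := by
    intro n
    ext x
    simp only [mem_inter_iff, mem_preimage]
    constructor
    · rintro ⟨h1, h2⟩
      rw [hfe n x (hAV n h2)] at h1
      exact ⟨h1, h2⟩
    · rintro ⟨h1, h2⟩
      rw [← hfe n x (hAV n h2)] at h1
      exact ⟨h1, h2⟩
  have hdec : f ⁻¹' s = (⋃ n, (e n ⁻¹' s ∩ A n)) ∪ R := by
    ext x
    constructor
    · intro hx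
      by_cases h : x ∈ ⋃ n, A n
      · left
        obtain ⟨n, hn⟩ := mem_iUnion.1 h
        refine mem_iUnion.2 ⟨n, ?_⟩
        rw [← hpiece n]
        exact ⟨hx, hn⟩
      · right
        exact ⟨hx, h⟩
    · rintro (hx | hx)
      · obtain ⟨n, hn⟩ := mem_iUnion.1 hx
        rw [← hpiece n] at hn
        exact hn.1
      · exact hx.1
  have hpm : ∀ n, MeasurableSet (e n ⁻¹' s ∩ A n) := fun n =>
    ((e n).continuous.measurable hs).inter (hAm n)
  have himm : ∀ n, MeasurableSet (s ∩ e n '' (A n)) := fun n =>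
    hs.inter ((e n).measurableEmbedding.measurableSet_image.2 (hAm n))
  have heq : ∀ n, volume (e n ⁻¹' s ∩ A n) = volume (s ∩ e n '' (A n)) := by
    intro n
    have h1 : e n ⁻¹' (s ∩ e n '' (A n)) = e n ⁻¹' s ∩ A n := by
      rw [preimage_inter, (e n).injective.preimage_image]
    rw [← h1, (he n).measure_preimage (himm n).nullMeasurableSet]
  have hdisj : Pairwise (Function.onFun Disjoint fun n => s ∩ e n '' (A n)) := by
    intro i j hij
    rw [Function.onFun, Set.disjoint_left]
    rintro x ⟨_, y, hy, rfl⟩ ⟨_, z, hz, hzy⟩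
    have h1 : f z = f y := by
      rw [hfe j z (hAV j hz), hfe i y (hAV i hy), hzy]
    have h2 := f.injective h1
    subst h2
    exact Set.disjoint_left.1 (hAd hij) hy hz
  refine ⟨?_, ?_⟩
  · rw [hdec]
    exact (MeasurableSet.iUnion hpm).union hRfin.measurableSet
  · rw [hdec]
    calc volume ((⋃ n, (e n ⁻¹' s ∩ A n)) ∪ R)
        ≤ volume (⋃ n, (e n ⁻¹' s ∩ A n)) + volume R := measure_union_le _ _
      _ = volume (⋃ n, (e n ⁻¹' s ∩ A n)) := by rw [finite_measure_zero hRfin, add_zero]
      _ ≤ ∑' n, volume (e n ⁻¹' s ∩ A n) := measure_iUnion_le _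
      _ = ∑' n, volume (s ∩ e n '' (A n)) := by simp_rw [heq]
      _ = volume (⋃ n, (s ∩ e n '' (A n))) := (measure_iUnion hdisj himm).symm
      _ ≤ volume s := measure_mono (iUnion_subset fun n => inter_subset_left)

theorem measurePreserving_of_mem {f : Equiv.Perm S} (hf : f ∈ PIso) :
    MeasurePreserving f volume volume := by
  have hm := measurable_and_le hf
  have hmeas : Measurable f := fun s hs => (hm s hs).1
  refine ⟨hmeas, ?_⟩
  ext s hs
  rw [Measure.map_apply hmeas hs]
  apply le_antisymm (hm s hs).2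
  have h1 := (hm sᶜ hs.compl).2
  have h2 : volume (f ⁻¹' sᶜ) = 1 - volume (f ⁻¹' s) := by
    rw [preimage_compl]
    exact prob_compl_eq_one_sub (hm s hs).1
  have h3 : volume sᶜ = 1 - volume s := prob_compl_eq_one_sub hs
  rw [h2, h3] at h1
  have h4 : volume s ≤ 1 := prob_le_one
  have h5 : volume (f ⁻¹' s) ≤ 1 := prob_le_one
  have h6 : volume s = 1 - (1 - volume s) := (ENNReal.sub_sub_cancel ENNReal.one_ne_top h4).symm
  have h7 : volume (f ⁻¹' s) = 1 - (1 - volume (f ⁻¹' s)) :=
    (ENNReal.sub_sub_cancel ENNReal.one_ne_top h5).symm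
  rw [h6, h7]
  exact tsub_le_tsub_left h1 1

theorem PIso_le_Ghat : PIso ≤ Ghat := by
  intro f hf
  have h1 := measurePreserving_of_mem hf
  have h2 := measurePreserving_of_mem (PIso.inv_mem hf)
  exact ⟨fun s hs => hs.preimage h1.quasiMeasurePreserving,
    fun s hs => hs.preimage h2.quasiMeasurePreserving,
    fun s hs => h1.measure_preimage hs⟩

end Pool.Agent.R567.IETF
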