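import Mathlib
import Pool.Agent.R567.IETF.Meas

set_option autoImplicit false

/-! # A null set of the cardinality of the continuum -/

namespace Pool.Agent.R567.IETF

open Filter Topology MeasureTheory Set Cardinal
open scoped Pointwise

theorem volume_cantorSet : volume cantorSet = 0 := by
  have hfin : volume cantorSet ≠ ⊤ := by
    refine ne_top_of_le_ne_top ?_ (measure_mono cantorSet_subset_unitInterval)
    simp
  have h1 : volume ((fun x : ℝ => x / 3) '' cantorSet) = ENNReal.ofReal (1/3) * volume cantorSet := by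
    have h2 : (fun x : ℝ => x / 3) '' cantorSet = (1/3 : ℝ) • cantorSet := by
      rw [← image_smul]
      apply image_congr'
      intro x
      simp [div_eq_inv_mul]
    rw [h2, Measure.addHaar_smul]
    simp
  have h3 : volume ((fun x : ℝ => (2 + x) / 3) '' cantorSet)
      = ENNReal.ofReal (1/3) * volume cantorSet := by
    have h4 : (fun x : ℝ => (2 + x) / 3) '' cantorSet
        = (fun x : ℝ => 2/3 + x) '' ((fun x : ℝ => x / 3) '' cantorSet) := by
      rw [image_image]
      apply image_congr'
      intro x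
      ring
    rw [h4, image_add_left, measure_preimage_add, h1]
  have h5 : volume cantorSet ≤ ENNReal.ofReal (1/3) * volume cantorSet
      + ENNReal.ofReal (1/3) * volume cantorSet := by
    calc volume cantorSet = volume ((fun x : ℝ => x / 3) '' cantorSet ∪
          (fun x : ℝ => (2 + x) / 3) '' cantorSet) := by
            conv_lhs => rw [cantorSet_eq_union_halves]
      _ ≤ _ := measure_union_le _ _
      _ = _ := by rw [h1, h3]
  rw [← add_mul, ← ENNReal.ofReal_add (by norm_num) (by norm_num)] at h5
  by_contra hne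
  have h6 : ENNReal.ofReal (1/3 + 1/3) * volume cantorSet < 1 * volume cantorSet := by
    apply ENNReal.mul_lt_mul_left hne hfin
    rw [← ENNReal.ofReal_one]
    exact (ENNReal.ofReal_lt_ofReal_iff (by norm_num)).2 (by norm_num)
  rw [one_mul] at h6
  exact absurd h5 (not_le.2 h6)

theorem mk_S : Cardinal.mk S = 𝔠 := by
  rw [mk_congr (AddCircle.equivIoc (1:ℝ) 0)]
  exact mk_Ioc_real (by norm_num)

theorem null_aux : volume ((AddCircle.equivIoc (1:ℝ) 0) ⁻¹'
    {y : Ioc (0:ℝ) (0+1) | (y : ℝ) ∈ cantorSet}) = 0 := by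
  have h1 := AddCircle.measurePreserving_equivIoc (1:ℝ) (a := 0)
  apply h1.quasiMeasurePreserving.preimage_null
  have h3 := (measurePreserving_subtype_coe (μa := (volume : Measure ℝ))
    (measurableSet_Ioc (a := (0:ℝ)) (b := 0+1))).quasiMeasurePreserving
  have h4 := Measure.restrict_le_self (μ := (volume : Measure ℝ))
    (s := Ioc (0:ℝ) (0+1)) cantorSet
  rw [volume_cantorSet] at h4
  exact h3.preimage_null (le_antisymm h4 zero_le)

theorem exists_null : ∃ C : Set S, volume C = 0 ∧ Cardinal.mk C = 𝔠 := by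
  let C : Set S := (AddCircle.equivIoc (1:ℝ) 0) ⁻¹' {y : Ioc (0:ℝ) (0+1) | (y : ℝ) ∈ cantorSet}
  refine ⟨C, null_aux, ?_⟩
  · apply le_antisymm
    · rw [← mk_S]
      exact mk_set_le C
    · have h1 : Cardinal.mk cantorSet = 𝔠 := by
        rw [mk_congr cantorSetEquivNatToBool]
        simp
      rw [← h1]
      have hmem : ∀ x : cantorSet, (2 + (x:ℝ))/3 ∈ cantorSet := by
        intro x
        have h2 : (2 + (x:ℝ))/3 ∈ (· / 3) '' cantorSet ∪ (fun x ↦ (2 + x) / 3) '' cantorSet :=
          Or.inr ⟨x, x.2, rfl⟩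
        rwa [← cantorSet_eq_union_halves] at h2
      have hI : ∀ x : cantorSet, (2 + (x:ℝ))/3 ∈ Ioc (0:ℝ) (0+1) := by
        intro x
        have h2 := cantorSet_subset_unitInterval x.2
        rw [mem_Icc] at h2
        constructor <;> linarith [h2.1, h2.2]
      let j : cantorSet → C := fun x =>
        ⟨(AddCircle.equivIoc (1:ℝ) 0).symm ⟨(2 + (x:ℝ))/3, hI x⟩, by
          change ((AddCircle.equivIoc (1:ℝ) 0 ((AddCircle.equivIoc (1:ℝ) 0).symm
            ⟨(2 + (x:ℝ))/3, hI x⟩) : Ioc (0:ℝ) (0+1)) : ℝ) ∈ cantorSet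
          rw [Equiv.apply_symm_apply]
          exact hmem x⟩
      apply mk_le_of_injective (f := j)
      intro x y hxy
      have h3 := congrArg Subtype.val hxy
      have h4 := (AddCircle.equivIoc (1:ℝ) 0).symm.injective h3
      have h5 := congrArg Subtype.val h4
      apply Subtype.ext
      have h6 : (2 + (x:ℝ))/3 = (2 + (y:ℝ))/3 := h5
      linarith

end Pool.Agent.R567.IETF
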