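import Mathlib
import Pool.Agent.R567.IETF.Null

set_option autoImplicit false

/-! # The action on germs of the circle -/

namespace Pool.Agent.R567.IETF

open Filter Topology MeasureTheory Set Cardinal

theorem map_coe_mul (g h : Equiv.Perm S) (F : Filter S) :
    map (⇑(g * h)) F = map g (map h F) := by
  rw [map_map]
  rfl

/-- The punctured neighbourhood filters and their images under piecewise isometric
permutations. -/
def Y : Set (Filter S) := {F | ∃ g ∈ PIso, ∃ x, F = map (⇑g) (𝓝[≠] x)}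

theorem map_mem_Y {g : Equiv.Perm S} (hg : g ∈ PIso) {F : Filter S} (hF : F ∈ Y) :
    map (⇑g) F ∈ Y := by
  obtain ⟨h, hh, x, rfl⟩ := hF
  exact ⟨g * h, PIso.mul_mem hg hh, x, (map_coe_mul g h _).symm⟩

/-- The action of the piecewise isometric permutations on `Y`. -/
def act : PIso →* Equiv.Perm Y where
  toFun g :=
    { toFun := fun F => ⟨map (⇑(g : Equiv.Perm S)) F.1, map_mem_Y g.2 F.2⟩
      invFun := fun F => ⟨map (⇑((g : Equiv.Perm S)⁻¹)) F.1, map_mem_Y (PIso.inv_mem g.2) F.2⟩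
      left_inv := by
        intro F
        apply Subtype.ext
        change map (⇑((g : Equiv.Perm S)⁻¹)) (map (⇑(g : Equiv.Perm S)) F.1) = F.1
        rw [← map_coe_mul, inv_mul_cancel]
        exact map_id
      right_inv := by
        intro F
        apply Subtype.ext
        change map (⇑(g : Equiv.Perm S)) (map (⇑((g : Equiv.Perm S)⁻¹)) F.1) = F.1
        rw [← map_coe_mul, mul_inv_cancel]
        exact map_id }
  map_one' := by
    ext F : 1
    apply Subtype.ext
    exact map_id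
  map_mul' g h := by
    ext F : 1
    apply Subtype.ext
    exact map_coe_mul _ _ _

theorem act_val (g : PIso) (F : Y) : (act g F).1 = map (⇑(g : Equiv.Perm S)) F.1 := rfl

instance neBot_punctured (x : S) : (𝓝[≠] x).NeBot := by
  rw [neBot_iff]
  intro h
  have h1 : IsOpen ({x} : Set S) := (isOpen_singleton_iff_punctured_nhds x).2 h
  have h2 : volume ({x} : Set S) ≠ 0 := h1.measure_ne_zero volume (singleton_nonempty x)
  exact h2 (finite_measure_zero (finite_singleton x))

/-- The germ at a point. -/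
def germ (x : S) : Y := ⟨𝓝[≠] x, 1, PIso.one_mem, x, map_id.symm⟩

theorem germ_injective : Function.Injective germ := by
  intro x y h
  have h1 : 𝓝[≠] x = 𝓝[≠] y := congrArg Subtype.val h
  have h2 : 𝓝[≠] x ≤ 𝓝 x ⊓ 𝓝 y := by
    apply le_inf nhdsWithin_le_nhds
    rw [h1]
    exact nhdsWithin_le_nhds
  have : (𝓝 x ⊓ 𝓝 y).NeBot := neBot_of_le h2
  exact eq_of_nhds_neBot this

theorem act_germ {g : PIso} {x : S} (h : IsoAt (g : Equiv.Perm S) x) :
    act g (germ x) = germ ((g : Equiv.Perm S) x) := by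
  apply Subtype.ext
  rw [act_val]
  change map (⇑(g : Equiv.Perm S)) (𝓝[≠] x) = 𝓝[≠] ((g : Equiv.Perm S) x)
  obtain ⟨e, _, he, _⟩ := h.exists_homeo
  have h1 : map (⇑(g : Equiv.Perm S)) (𝓝[≠] x) = map e (𝓝[≠] x) := by
    apply Filter.map_congr
    exact he.filter_mono nhdsWithin_le_nhds
  rw [h1, e.map_punctured_nhds_eq, ← he.self_of_nhds]

/-- The finitely supported permutations act trivially. -/
theorem act_fin {g : PIso} (h : (g : Equiv.Perm S) ∈ Sfin) : act g = 1 := by
  ext F : 1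
  apply Subtype.ext
  rw [act_val]
  change map (⇑(g : Equiv.Perm S)) F.1 = F.1
  obtain ⟨k, _, x, hF⟩ := F.2
  rw [hF]
  have hfin : {x | (g : Equiv.Perm S) x ≠ x}.Finite := h
  have h1 : {y | (g : Equiv.Perm S) (k y) ≠ k y}.Finite := hfin.preimage k.injective.injOn
  rw [map_map]
  apply Filter.map_congr
  have h2 : {y | (g : Equiv.Perm S) (k y) ≠ k y}ᶜ ∈ 𝓝[≠] x :=
    nhdsNE_le_cofinite x h1.compl_mem_cofinite
  filter_upwards [h2] with y hy
  by_contra h3
  exact hy h3

/-- Two piecewise isometric permutations that agree on a dense set agree off a finite set. -/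
theorem finite_of_dense {g h : Equiv.Perm S} (hg : g ∈ PIso) (hh : h ∈ PIso) {D : Set S}
    (hD : Dense D) (hgh : ∀ x ∈ D, g x = h x) : {x | g x ≠ h x}.Finite := by
  have h1 : {x | ¬ IsoAt g x}.Finite := hg
  have h2 : {x | ¬ IsoAt h x}.Finite := hh
  refine (h1.union h2).subset ?_
  intro x hx
  by_contra hn
  simp only [mem_union, mem_ofPred_eq, not_or, not_not] at hn
  apply hx
  have h3 : Tendsto g (𝓝[D] x) (𝓝 (g x)) := hn.1.continuousAt.tendsto.mono_left nhdsWithin_le_nhds
  have h4 : Tendsto h (𝓝[D] x) (𝓝 (h x)) := hn.2.continuousAt.tendsto.mono_left nhdsWithin_le_nhds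
  have : (𝓝[D] x).NeBot := mem_closure_iff_nhdsWithin_neBot.1 (hD x)
  have h5 : Tendsto g (𝓝[D] x) (𝓝 (h x)) := by
    refine h4.congr' ?_
    filter_upwards [self_mem_nhdsWithin] with y hy
    exact (hgh y hy).symm
  exact tendsto_nhds_unique h3 h5

theorem mk_Y_le : Cardinal.mk Y ≤ 𝔠 := by
  have h1 : ∀ F : Y, ∃ p : PIso × S, F.1 = map (⇑(p.1 : Equiv.Perm S)) (𝓝[≠] p.2) := by
    intro F
    obtain ⟨g, hg, x, hF⟩ := F.2
    exact ⟨(⟨g, hg⟩, x), hF⟩
  choose p hp using h1
  let d := TopologicalSpace.denseSeq S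
  let q : Y → (ℕ → S) × S := fun F => (fun n => ((p F).1 : Equiv.Perm S) (d n), (p F).2)
  have hq : Function.Injective q := by
    intro F F' h
    apply Subtype.ext
    rw [hp F, hp F']
    have h2 : ∀ n, ((p F).1 : Equiv.Perm S) (d n) = ((p F').1 : Equiv.Perm S) (d n) := by
      intro n
      exact congrFun (congrArg Prod.fst h) n
    have h3 : (p F).2 = (p F').2 := congrArg (fun r : (ℕ → S) × S => r.2) h
    rw [h3]
    apply Filter.map_congr
    have h4 := finite_of_dense (p F).1.2 (p F').1.2 (TopologicalSpace.denseRange_denseSeq S)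
      (by
        rintro x ⟨n, rfl⟩
        exact h2 n)
    have h5 := nhdsNE_le_cofinite (p F').2 h4.compl_mem_cofinite
    filter_upwards [h5] with y hy
    by_contra h6
    exact hy h6
  refine (mk_le_of_injective hq).trans ?_
  have h7 : Cardinal.mk ((ℕ → S) × S) = 𝔠 := by
    rw [mk_prod, mk_pi]
    simp [mk_S]
  exact h7.le

theorem exists_theta : ∃ (C : Set S) (θ : Y ≃ S), volume C = 0 ∧ ∀ x ∉ C, θ (germ x) = x := by
  classical
  obtain ⟨C, hC0, hC⟩ := exists_null
  let A : Set Y := germ '' Cᶜ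
  have hA : Cardinal.mk (Aᶜ : Set Y) = Cardinal.mk C := by
    apply le_antisymm
    · rw [hC]
      exact (mk_set_le _).trans mk_Y_le
    · have h1 : germ '' C ⊆ Aᶜ := by
        rintro _ ⟨x, hx, rfl⟩ ⟨y, hy, hxy⟩
        exact hy (germ_injective hxy ▸ hx)
      have h2 : Cardinal.mk (germ '' C : Set Y) ≤ Cardinal.mk (Aᶜ : Set Y) := mk_le_mk_of_subset h1
      rwa [mk_image_eq germ_injective] at h2
  have hA' : Cardinal.mk (Aᶜ : Set Y) = Cardinal.mk ((Cᶜᶜ : Set S)) := by rw [hA, compl_compl]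
  obtain ⟨e2⟩ := Cardinal.eq.1 hA'
  let e1 : A ≃ (Cᶜ : Set S) := (Equiv.Set.image germ Cᶜ germ_injective).symm
  let θ : Y ≃ S := (Equiv.Set.sumCompl A).symm.trans
    ((Equiv.sumCongr e1 e2).trans (Equiv.Set.sumCompl Cᶜ))
  refine ⟨C, θ, hC0, ?_⟩
  intro x hx
  have hxA : germ x ∈ A := ⟨x, hx, rfl⟩
  have h3 : (Equiv.Set.sumCompl A).symm (germ x) = Sum.inl ⟨germ x, hxA⟩ :=
    Equiv.Set.sumCompl_symm_apply_of_mem hxA
  have h4 : e1 ⟨germ x, hxA⟩ = ⟨x, hx⟩ := by
    rw [Equiv.symm_apply_eq]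
    rfl
  simp only [θ, Equiv.trans_apply, h3, Equiv.sumCongr_apply, Sum.map_inl, h4,
    Equiv.Set.sumCompl_apply_inl]

end Pool.Agent.R567.IETF
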