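import Mathlib
import Pool.Agent.R567.IETF.Act

set_option autoImplicit false

/-! # Piecewise isometric permutations are isometries on finitely many intervals -/

namespace Pool.Agent.R567.IETF

open Filter Topology MeasureTheory Set

/-- `e` is `y ↦ y + c` or `y ↦ c - y`. -/
def Form (e : S → S) : Prop := (∃ c, ∀ y, e y = y + c) ∨ (∃ c, ∀ y, e y = c - y)

theorem isoAt_iff {f : S → S} {x : S} : IsoAt f x ↔ ∃ e, Form e ∧ ∀ᶠ y in 𝓝 x, f y = e y := by
  constructor
  · rintro ⟨c, hc | hc⟩
    · exact ⟨fun y => y + c, Or.inl ⟨c, fun y => rfl⟩, hc⟩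
    · exact ⟨fun y => c - y, Or.inr ⟨c, fun y => rfl⟩, hc⟩
  · rintro ⟨e, ⟨c, hc⟩ | ⟨c, hc⟩, he⟩
    · exact ⟨c, Or.inl (he.mono fun y hy => by rw [hy, hc])⟩
    · exact ⟨c, Or.inr (he.mono fun y hy => by rw [hy, hc])⟩

theorem finite_double (a : S) : {z : S | z + z = a}.Finite := by
  rcases Set.eq_empty_or_nonempty {z : S | z + z = a} with h | ⟨w, hw⟩
  · rw [h]
    exact Set.finite_empty
  · have h1 : {u : S | 2 • u = 0}.Finite := AddCircle.finite_torsion (1:ℝ) (by norm_num)
    refine (h1.preimage (f := fun z => z - w) (sub_left_injective.injOn)).subset ?_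
    intro z hz
    have h2 : z + z = a := hz
    have h3 : w + w = a := hw
    change 2 • (z - w) = 0
    rw [two_nsmul]
    have h4 : z - w + (z - w) = (z + z) - (w + w) := by abel
    rw [h4, h2, h3, sub_self]

theorem not_eventually_double (w a : S) : ¬ ∀ᶠ z in 𝓝 w, z + z = a := by
  intro h
  have h1 : ∀ᶠ z in 𝓝[≠] w, z + z = a := h.filter_mono nhdsWithin_le_nhds
  have h2 := nhdsNE_le_cofinite w (finite_double a).compl_mem_cofinite
  have h3 : ∀ᶠ z in 𝓝[≠] w, False := by
    filter_upwards [h1, h2] with z hz1 hz2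
    exact hz2 hz1
  exact (neBot_punctured w).ne (eventually_false_iff_eq_bot.1 h3)

theorem Form.eq_of_eventually {e e' : S → S} (he : Form e) (he' : Form e') {w : S}
    (h : ∀ᶠ z in 𝓝 w, e z = e' z) : e = e' := by
  rcases he with ⟨c, hc⟩ | ⟨c, hc⟩ <;> rcases he' with ⟨d, hd⟩ | ⟨d, hd⟩
  · have h1 := h.self_of_nhds
    rw [hc, hd] at h1
    have h2 := add_left_cancel h1
    funext z
    rw [hc, hd, h2]
  · exfalso
    apply not_eventually_double w (d - c)
    filter_upwards [h] with z hz
    rw [hc, hd] at hz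
    calc z + z = (z + c) + z - c := by abel
      _ = (d - z) + z - c := by rw [hz]
      _ = d - c := by abel
  · exfalso
    apply not_eventually_double w (c - d)
    filter_upwards [h] with z hz
    rw [hc, hd] at hz
    calc z + z = (z + d) + z - d := by abel
      _ = (c - z) + z - d := by rw [hz]
      _ = c - d := by abel
  · have h1 := h.self_of_nhds
    rw [hc, hd] at h1
    have h2 : c = d := sub_left_injective h1
    funext z
    rw [hc, hd, h2]

/-- On a preconnected set of good points, `f` has one of the two forms. -/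
theorem form_of_preconnected {f : S → S} {U : Set S} (hU : IsPreconnected U)
    (hgood : ∀ y ∈ U, IsoAt f y) {x : S} (hx : x ∈ U) :
    ∃ e, Form e ∧ ∀ y ∈ U, f y = e y := by
  obtain ⟨e, he, hex⟩ := isoAt_iff.1 (hgood x hx)
  refine ⟨e, he, ?_⟩
  let T : (S → S) → Set S := fun e' => {y | ∀ᶠ z in 𝓝 y, f z = e' z}
  have hT : ∀ e', IsOpen (T e') := fun e' => isOpen_setOfPred_eventually_nhds
  let V : Set S := ⋃ e' ∈ {e' | Form e' ∧ e' ≠ e}, T e'
  have hV : IsOpen V := isOpen_biUnion fun e' _ => hT e'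
  have hdisj : Disjoint (T e) V := by
    rw [Set.disjoint_left]
    intro y hy1 hy2
    simp only [V, mem_iUnion, exists_prop] at hy2
    obtain ⟨e', ⟨he', hne⟩, hy2⟩ := hy2
    apply hne
    symm
    apply he.eq_of_eventually he' (w := y)
    have hy1' : ∀ᶠ z in 𝓝 y, f z = e z := hy1
    have hy2' : ∀ᶠ z in 𝓝 y, f z = e' z := hy2
    filter_upwards [hy1', hy2'] with z h1 h2
    rw [← h1, h2]
  have hcov : U ⊆ T e ∪ V := by
    intro y hy
    obtain ⟨e', he', hy'⟩ := isoAt_iff.1 (hgood y hy)
    by_cases h : e' = e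
    · left
      rw [← h]
      exact hy'
    · right
      simp only [V, mem_iUnion, exists_prop]
      exact ⟨e', ⟨he', h⟩, hy'⟩
  have hsub := IsPreconnected.subset_left_of_subset_union (hT e) hV hdisj hcov ⟨x, hx, hex⟩ hU
  intro y hy
  have h1 : ∀ᶠ z in 𝓝 y, f z = e z := hsub hy
  exact h1.self_of_nhds

instance instLocConnS : LocallyConnectedSpace S := by
  have h1 : LocallyPathConnectedSpace S :=
    (QuotientAddGroup.isQuotientMap_mk (AddSubgroup.zmultiples (1:ℝ))).locallyPathConnectedSpace
  infer_instance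

/-- The group `PIso` consists of the permutations for which there is a finite set `F` such that
on each connected component of the complement of `F` the permutation is `y ↦ y + c` or
`y ↦ c - y`. -/
theorem mem_PIso_iff (f : Equiv.Perm S) : f ∈ PIso ↔ ∃ F : Set S, F.Finite ∧ ∀ x ∉ F, ∃ c : S,
    (∀ y ∈ connectedComponentIn Fᶜ x, f y = y + c) ∨
    (∀ y ∈ connectedComponentIn Fᶜ x, f y = c - y) := by
  constructor
  · intro hf
    have hfin : {x | ¬ IsoAt f x}.Finite := hf
    refine ⟨{x | ¬ IsoAt f x}, hfin, ?_⟩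
    intro x hx
    have h1 : x ∈ connectedComponentIn {x | ¬ IsoAt f x}ᶜ x := mem_connectedComponentIn hx
    obtain ⟨e, he, hfe⟩ := form_of_preconnected (f := f) isPreconnected_connectedComponentIn
      (fun y hy => by
        have h2 := connectedComponentIn_subset _ _ hy
        by_contra h3
        exact h2 h3) h1
    rcases he with ⟨c, hc⟩ | ⟨c, hc⟩
    · exact ⟨c, Or.inl fun y hy => by rw [hfe y hy, hc]⟩
    · exact ⟨c, Or.inr fun y hy => by rw [hfe y hy, hc]⟩
  · rintro ⟨F, hF, h⟩
    refine hF.subset ?_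
    intro x hx
    by_contra hn
    apply hx
    have h1 : IsOpen (connectedComponentIn Fᶜ x) := hF.isClosed.isOpen_compl.connectedComponentIn
    have h2 : connectedComponentIn Fᶜ x ∈ 𝓝 x := h1.mem_nhds (mem_connectedComponentIn hn)
    obtain ⟨c, hc | hc⟩ := h x hn
    · exact ⟨c, Or.inl (by filter_upwards [h2] with y hy using hc y hy)⟩
    · exact ⟨c, Or.inr (by filter_upwards [h2] with y hy using hc y hy)⟩

end Pool.Agent.R567.IETF
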